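import Mathlib
import Pool.Agent.H75.Per.Cond

set_option autoImplicit false

/-! MP_2e6055, module INST: the conditional average of a functional of independent bits. -/

namespace Pool.Agent.H98.Inst

open Finset Classical
open Pool.Agent.H75.Per

/-- **PUSH**: `φ` names bits of `E` off `S`; a function of these bits is averaged over all values. -/
theorem CX_push {α β : Type*} {E S ω₀ : Finset α} (h0 : ω₀ ⊆ E) (B : Finset β) (φ : β → α)
    (hφ : ∀ x ∈ B, ∀ y ∈ B, φ x = φ y → x = y) (hE : ∀ x ∈ B, φ x ∈ E) (hS : ∀ x ∈ B, φ x ∉ S)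
    (F : Finset β → ℝ) :
    CX E S ω₀ (fun ω => F (B.filter (fun x => φ x ∈ ω))) =
      (∑ w ∈ B.powerset, F w) / 2 ^ B.card := by
  set W : Finset α := B.image φ with hW
  have hWE : W ⊆ E := by
    intro a ha
    rw [hW, mem_image] at ha
    obtain ⟨x, hx, rfl⟩ := ha
    exact hE x hx
  have hWS : ∀ a ∈ W, a ∉ S := by
    intro a ha
    rw [hW, mem_image] at ha
    obtain ⟨x, hx, rfl⟩ := ha
    exact hS x hx
  have hφW : ∀ x ∈ B, φ x ∈ W := fun x hx => mem_image_of_mem φ hx
  have hcard : W.card = B.card := card_image_of_injOn fun x hx y hy => hφ x hx y hy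
  rw [← CX_indep (W := W) (H := E \ W) h0]
  · unfold CX
    have hE2 : E \ (S ∪ E \ W) = W := by
      ext a
      simp only [mem_sdiff, mem_union, not_or, not_and, not_not]
      constructor
      · rintro ⟨h1, _, h3⟩
        exact h3 h1
      · intro h
        exact ⟨hWE h, hWS a h, fun _ => h⟩
    rw [hE2, hcard]
    congr 1
    apply sum_nbij' (fun ω => B.filter (fun x => φ x ∈ ω))
      (fun w => (ω₀ ∩ (S ∪ E \ W)) ∪ w.image φ)
    · intro ω _
      rw [mem_powerset]
      exact filter_subset _ _
    · intro w hw
      rw [mem_powerset] at hw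
      have hwW : ∀ a, a ∈ w.image φ → a ∈ W := fun a ha => image_subset_image hw ha
      rw [mem_filter, mem_powerset]
      constructor
      · intro a ha
        rw [mem_union, mem_inter] at ha
        rcases ha with ha | ha
        · exact h0 ha.1
        · exact hWE (hwW a ha)
      · ext a
        simp only [mem_inter, mem_union, mem_sdiff]
        constructor
        · rintro ⟨h1 | h1, h2⟩
          · exact ⟨h1.1, h2⟩
          · exfalso
            have h3 := hwW a h1
            rcases h2 with h2 | h2
            · exact hWS a h3 h2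
            · exact h2.2 h3
        · rintro ⟨h1, h2⟩
          exact ⟨Or.inl ⟨h1, h2⟩, h2⟩
    · intro ω hω
      rw [mem_filter, mem_powerset] at hω
      rw [← hω.2]
      ext a
      simp only [mem_union, mem_inter, mem_image, mem_filter, mem_sdiff]
      constructor
      · rintro (⟨h1, _⟩ | ⟨x, ⟨_, hx⟩, rfl⟩)
        · exact h1
        · exact hx
      · intro ha
        by_cases haW : a ∈ W
        · right
          rw [hW, mem_image] at haW
          obtain ⟨x, hx, rfl⟩ := haW
          exact ⟨x, ⟨hx, ha⟩, rfl⟩
        · left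
          exact ⟨ha, Or.inr ⟨hω.1 ha, haW⟩⟩
    · intro w hw
      rw [mem_powerset] at hw
      ext x
      simp only [mem_filter, mem_union, mem_inter, mem_image, mem_sdiff]
      constructor
      · rintro ⟨hx, ⟨_, h2⟩ | ⟨y, hy, hyx⟩⟩
        · exfalso
          rcases h2 with h2 | h2
          · exact hS x hx h2
          · exact h2.2 (hφW x hx)
        · rw [← hφ y (hw hy) x hx hyx]; exact hy
      · intro hx
        exact ⟨hw hx, Or.inr ⟨x, hx, rfl⟩⟩
    · intro ω _
      rfl
  · intro ω _ _ ω' _ _ hag
    rw [agree_iff] at hag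
    congr 1
    ext x
    simp only [mem_filter]
    constructor
    · rintro ⟨hx, h⟩
      exact ⟨hx, (hag _ (hφW x hx)).1 h⟩
    · rintro ⟨hx, h⟩
      exact ⟨hx, (hag _ (hφW x hx)).2 h⟩
  · intro x hx hxW
    exact absurd hxW (mem_sdiff.1 hx).2

end Pool.Agent.H98.Inst
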