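import Pool.Agent.H98.Inst.Push
import Pool.Agent.H75.Lv.Site3

set_option autoImplicit false

/-! MP_2e6055, module INST: the field `suc` of `Sys.In` for the system `SY` of one site. -/

namespace Pool.Agent.H98.Inst

open Pool.Agent.H7.UC Pool.Agent.H74.Tri Pool.Agent.H75.Perc Pool.Agent.H89.Per Pool.Agent.H75.Lv
open Pool.Agent.H75.Per (CX IsStop Meas agree_mono agree_iff CX_mono)
open Classical

attribute [-instance] instDecidableEqSum

variable {c : Cf}

/-- the scales below a used scale are used -/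
theorem use_le (hc : c.Ok) {v : Fc} {j j0 : ℕ} (h : c.use j0 v) (h1 : 1 ≤ j) (hj : j ≤ j0) :
    c.use j v := by
  refine ⟨h1, hj.trans h.2.1, ?_⟩
  rcases hj.eq_or_lt with rfl | hlt
  · exact h.2.2
  obtain ⟨i, rfl⟩ : ∃ i, j0 = i + 1 := ⟨j0 - 1, by omega⟩
  have hji : j ≤ i := by omega
  refine subset_trans ?_ h.2.2
  have a1 := sq_near hc j v
  have a2 := sq_near hc (i + 1) v
  have a3 : c.sq j v ∈ Bx (c.sq (i + 1) v) (c.hs j + c.hs (i + 1)) := by
    rw [mem_Bx] at a1 a2 ⊢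
    have t1 := abs_add_le ((c.sq j v).1 - v.1) (v.1 - (c.sq (i + 1) v).1)
    have t2 := abs_add_le ((c.sq j v).2 - v.2) (v.2 - (c.sq (i + 1) v).2)
    rw [show (c.sq j v).1 - v.1 + (v.1 - (c.sq (i + 1) v).1) =
      (c.sq j v).1 - (c.sq (i + 1) v).1 by ring, abs_sub_comm (c.sq j v).1 v.1] at t1
    rw [show (c.sq j v).2 - v.2 + (v.2 - (c.sq (i + 1) v).2) =
      (c.sq j v).2 - (c.sq (i + 1) v).2 by ring, abs_sub_comm (c.sq j v).2 v.2] at t2
    constructor
    · linarith [a1.1, a2.1]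
    · linarith [a1.2, a2.2]
  apply Bx_sub a3
  have b1 := hc.rho_mono hji
  have b2 := hc.Lrho_step i
  have b3 := hc.rho_le_L i
  have b4 := hc.hs8 j
  have b5 := hc.hs8 (i + 1)
  have b6 := hc.u_le_hu (i + 1)
  have b7 := hc.hu_le_rho (i + 1)
  have b8 := hc.hu_le_rho j
  have b9 := hc.hu_pos (i + 1)
  have b10 := hc.hu_pos j
  have b11 := hc.un_pos (i + 1)
  have b12 := hc.rho_pos i
  have b13 := hc.rho_pos j
  have b14 := hc.rho_pos (i + 1)
  linarith

theorem aS_box (hc : c.Ok) {v : Fc} {j : ℕ} (h : c.use j v) {f : Fc}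
    (hf : f ∈ c.aS j (c.sq j v)) : f ∈ box c.m c.n := by
  apply h.2.2
  have h1 : f ∈ c.aS j (c.sq j (c.sq j v)) := by rw [sq_sq hc]; exact hf
  exact Bx_mono (by linarith [hc.rho_pos j]) (annS_near hc h1)

theorem exists_lab (hc : c.Ok) {v : Fc} {j : ℕ} (h : c.use j v) :
    ∃ κ : c.Lab, c.sc κ = j ∧ c.ct κ = c.sq j v := by
  have hb : c.sq j v ∈ box c.m c.n := by
    apply h.2.2
    rw [mem_Bx, sub_self, sub_self, abs_zero]
    have := hc.rho_pos j
    constructor <;> linarith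
  have e := em_toV hb
  refine ⟨⟨(⟨j, by have := h.2.1; omega⟩, toV c.m c.n (c.sq j v) hb), ?_, ?_⟩, rfl, e⟩
  · show c.sq j (em (toV c.m c.n (c.sq j v) hb)) = em (toV c.m c.n (c.sq j v) hb)
    rw [e, sq_sq hc]
  · show c.use j (em (toV c.m c.n (c.sq j v) hb))
    rw [e]
    refine ⟨h.1, h.2.1, ?_⟩
    rw [sq_sq hc]
    exact h.2.2

theorem sum_I {α : Type*} (E : Finset α) (A : Finset α → Prop) :
    (∑ w ∈ E.powerset, Pool.Agent.H75.Per.I (A w)) / 2 ^ E.card = Pr E A := by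
  rw [Pr_eq]
  congr 1
  unfold Pool.Agent.H75.Per.I
  rw [Finset.sum_boole]

/-- **the field `suc`** -/
theorem suc_field (hC : CIRC) : ∃ c0 : ℝ, 0 < c0 ∧ ∃ w0 : ℕ, ∀ (c : Cf) (hc : c.Ok) (hA : ADMC)
    (v : Fc) (j0 k : ℕ), w0 ≤ c.a → c.use j0 v → ∀ ω : Finset c.al,
    (SY c hc hA v j0).made k ω → c0 ≤ CX Finset.univ ((SY c hc hA v j0).A k ω) ω
      (fun ω' => Pool.Agent.H75.Per.I ((SY c hc hA v j0).succ k ω')) := by
  obtain ⟨c0, hc0, w0, H⟩ := hC
  refine ⟨c0, hc0, w0, ?_⟩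
  intro c hc hA v j0 k hw huse ω hmade
  have hmade' : mad v j0 k ω := hmade
  obtain ⟨hj1, _, _⟩ := hmade'
  have huj : c.use (j0 - k) v := use_le hc huse hj1 (Nat.sub_le _ _)
  obtain ⟨κ0, hκ1, hκ2⟩ := exists_lab hc huj
  set j := j0 - k with hj
  set z0 := c.sq j v with hz0
  have hAR : (SY c hc hA v j0).A k ω = Rg (c.En j z0) ω := by
    show AR v j0 k ω = _
    unfold AR
    rw [if_pos hj1]
  set X0 := XX ω (fi (c.En j z0) ω) with hX0
  set φ : c.V → c.al := fun x => if x ∈ X0 then Sum.inr (κ0, x) else Sum.inl x with hφ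
  have hφi : ∀ x y : c.V, φ x = φ y → x = y := by
    intro x y hxy
    simp only [hφ] at hxy
    by_cases hx : x ∈ X0
    · by_cases hy : y ∈ X0
      · rw [if_pos hx, if_pos hy] at hxy
        exact (Prod.mk.inj (Sum.inr.inj hxy)).2
      · rw [if_pos hx, if_neg hy] at hxy
        cases hxy
    · by_cases hy : y ∈ X0
      · rw [if_neg hx, if_pos hy] at hxy
        cases hxy
      · rw [if_neg hx, if_neg hy] at hxy
        exact Sum.inl.inj hxy
  set F : Finset c.V → ℝ := fun w =>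
    Pool.Agent.H75.Per.I (c.AN j z0 (ext c.m c.n (fun x => decide (x ∈ w)))) with hF
  have e1 : CX Finset.univ ((SY c hc hA v j0).A k ω) ω
      (fun ω' => F ((Finset.univ : Finset c.V).filter (fun x => φ x ∈ ω'))) =
      (∑ w ∈ (Finset.univ : Finset c.V).powerset, F w) / 2 ^ (Finset.univ : Finset c.V).card := by
    apply CX_push (Finset.subset_univ _)
    · exact fun x _ y _ hxy => hφi x y hxy
    · exact fun x _ => Finset.mem_univ _
    · intro x _
      rw [hAR]
      simp only [hφ]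
      by_cases hx : x ∈ X0
      · rw [if_pos hx]; exact not_mem_Rg
      · rw [if_neg hx]
        intro hh
        exact hx (mem_XX.2 (mem_Rg.1 hh))
  have e2 : CX Finset.univ ((SY c hc hA v j0).A k ω) ω
      (fun ω' => F ((Finset.univ : Finset c.V).filter (fun x => φ x ∈ ω'))) ≤
      CX Finset.univ ((SY c hc hA v j0).A k ω) ω
      (fun ω' => Pool.Agent.H75.Per.I ((SY c hc hA v j0).succ k ω')) := by
    apply CX_mono
    intro ω' _ hag
    rw [hAR] at hag
    have hg : Agr (Om ω) (Om ω') (fi (c.En j z0) ω) := agr_Rg hag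
    apply Pool.Agent.H75.Per.I_mono
    intro hAN
    refine ⟨κ0, hκ1, hκ2, ?_⟩
    rw [← hj, ← hz0, fi_agr hc hg, XX_agr hg, ← hX0]
    refine (AN_congr fun f _ => ?_).1 hAN
    refine ext_eq fun x _ => ?_
    unfold mix
    by_cases hx : x ∈ X0
    · rw [if_pos hx]
      simp only [hφ, Finset.mem_filter, Finset.mem_univ, true_and, hx, if_true]
    · rw [if_neg hx]
      unfold b1
      simp only [hφ, Finset.mem_filter, Finset.mem_univ, true_and, hx, if_false]
  refine le_trans ?_ e2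
  rw [e1, hF, sum_I]
  -- CIRC
  have hmap : ∀ f, f ∈ (Finset.univ : Finset c.V).map ⟨em, fun _ _ h => em_inj h⟩ ↔
      f ∈ box c.m c.n := by
    intro f
    rw [Finset.mem_map]
    constructor
    · rintro ⟨x, _, rfl⟩
      exact em_mem x
    · intro hf
      obtain ⟨x, hx⟩ := exists_em hf
      exact ⟨x, Finset.mem_univ _, hx⟩
  have hun : w0 ≤ c.un j := by
    have h1 : (0 : ℤ) < c.un 0 := by linarith [hc.un_pos 0]
    have h2 : 1 ≤ c.l := by
      have h3 := hc.l
      have h4 := hc.L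
      have h5 := hc.g.N8
      have h6 := hc.g.h64
      have h7 : (0 : ℤ) < 64 * c.L * c.g.N * c.g.h := by positivity
      omega
    have h3 : 1 ≤ c.l ^ j := Nat.one_le_pow _ _ h2
    unfold Cf.un
    calc w0 ≤ c.a * 1 := by omega
      _ ≤ c.a * c.l ^ j := Nat.mul_le_mul_left _ h3
  have h5 := H (c.un j) hun (fun d => c.pc d j z0)
    ((Finset.univ : Finset c.V).map ⟨em, fun _ _ h => em_inj h⟩) (by
      intro d f hf
      rw [hmap]
      exact aS_box hc huj ⟨d, hf⟩)
  rw [Pr_map] at h5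
  refine h5.trans (Pr_mono ?_)
  intro w _ hw d
  refine (ANN_congr fun f hf => ?_).1 (hw d)
  have hfb : f ∈ box c.m c.n := aS_box hc huj ⟨d, hf⟩
  obtain ⟨x, rfl⟩ := exists_em hfb
  rw [ext_em, decide_eq_decide, Finset.mem_map]
  constructor
  · rintro ⟨y, hy, hyx⟩
    rw [← em_inj hyx]; exact hy
  · intro hx
    exact ⟨x, hx, rfl⟩

end Pool.Agent.H98.Inst
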